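import Pool.Agent.Lib_helper18.AQ.K.Defs11
import Pool.Agent.Lib_helper18.PENKF.DefsQ

/-! AQ: the definitions of the statement files (helper18) -/

set_option autoImplicit false

namespace Pool.Agent.AQ.PENK

open Finset Pool.Agent.PENT Pool.Agent.PENK

section

variable {K : ℕ} [NeZero K] [FD] (m : Fin K)

/-- the local condition at `p`: good for `u` and `v` -/
noncomputable def hgood (u u' : PolyK K) (p : ℕ) (R : Bas) : ℝ :=
  ich ((p ∣ DD m u → (p : ℤ) ∣ Rf R (Lv m u p)) ∧ (p ∣ DD m u' → (p : ℤ) ∣ Rf R (Lv m u' p)))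

open Classical in
/-- the density of the second sieve is at least `bden / p` -/
noncomputable def bden (W : Wts K) (P0 p : ℕ) : ℝ :=
  if ¬ Sp p then 2 * ((inr K \ {m}).card : ℝ)
  else if p ≤ P0 then
    2 * ((inr K \ {m}).card : ℝ) + 4 * ∑ k ∈ ivr K, (1 - W.bo k) + 2 * (1 - W.bo 0) +
      2 * (1 - W.bo 1)
  else 2 * ∑ j ∈ inr K \ {m}, (1 - 2 * W.al j) + 4 * ∑ k ∈ ivr K, (1 - W.be k) +
    2 * (1 - W.be 0 ^ 2 / W.s0) + 2 * (1 - W.be 1 ^ 2 / W.s1)

end

open Classical in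
/-- squarefree numbers composed of primes `> P0` with two isotropic lines -/
noncomputable def DP0 [FD] (P0 x : ℕ) : Finset ℕ :=
  (Icc 1 x).filter (fun d => Squarefree d ∧ ∀ p : ℕ, p.Prime → p ∣ d → P0 < p ∧ Sp p)

/-- the triples -/
structure TripP [FD] (q : Par 11) (κ : ℝ) (m : Fin 11) (x : ℝ) (P0 : ℕ)
    (s : Bas × PolyK 11 × PolyK 11) : Prop where
  p1 : IsPath q κ m x P0 s.2.1
  p2 : IsPath q κ m x P0 s.2.2
  o1 : Over m q x s.1 s.2.1
  o2 : Over m q x s.1 s.2.2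

end Pool.Agent.AQ.PENK
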