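import Pool.Agent.Lib_helper18.PENK.Defs

/-!
# AQ (MP_892e4c_nt, all quadratics): pairs of polygons over one base (helper18)

Port of PENK: forms of determinant `D` (`class FD`), one open edge `m` of the closed `K`-gon whose
determinant `dl u m` is a fixed number prime to all primes `> N0`; `dn m u m = 1`.
-/

set_option autoImplicit false

namespace Pool.Agent.AQ.PENK

open Finset Pool.Agent.PENT Pool.Agent.PENK

/-! ### the forms -/

open Classical in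
/-- the data of the forms: the determinant `D`, the fixed end vector `z` of the paths; all exceptional
primes are `≤ N0` -/
class FD where
  /-- the determinant -/
  D : ℤ
  /-- all exceptional primes are at most `N0` -/
  N0 : ℕ
  /-- the end vector -/
  z : ℤ × ℤ
  two : 2 ≤ N0
  bad : ∀ p : ℕ, p.Prime → N0 < p → ¬ (p : ℤ) ∣ D
  zy : 1 ≤ z.2
  zc : Int.gcd z.1 z.2 = 1
  zb : ∀ p : ℕ, p.Prime → N0 < p → ¬ (p : ℤ) ∣ z.2
  /-- Mertens' theorem for the primes with two isotropic lines -/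
  mt : ∃ C : ℝ, ∀ x : ℝ, 2 ≤ x →
    |∑ p ∈ (Icc 1 ⌊x⌋₊).filter (fun p => p.Prime ∧ IsSquare ((-D : ℤ) : ZMod p)), 1 / (p : ℝ) -
      1 / 2 * Real.log (Real.log x)| ≤ C

/-- the primes with two isotropic lines: `-D` is a square modulo `p` -/
def Sp [FD] (p : ℕ) : Prop := IsSquare ((-FD.D : ℤ) : ZMod p)

noncomputable instance decSp [FD] (p : ℕ) : Decidable (Sp p) := Classical.propDecidable _

/-- `d_j`, for the open edge `1` -/
def dn {K : ℕ} [NeZero K] (m : Fin K) (u : PolyK K) (j : Fin K) : ℕ :=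
  if j = m then 1 else (dl u j).natAbs

/-- `D(u) = ∏ d_j` -/
def DD {K : ℕ} [NeZero K] (m : Fin K) (u : PolyK K) : ℕ := ∏ j, dn m u j

/-- the product of the interior `d_j` -/
def bad {K : ℕ} [NeZero K] (m : Fin K) (u : PolyK K) : ℕ := ∏ j ∈ inr K, dn m u j

section

variable {K : ℕ} [NeZero K] {m : Fin K}

theorem dn_m (u : PolyK K) : dn m u m = 1 := by
  unfold dn
  rw [if_pos rfl]

theorem dn_ne (u : PolyK K) {j : Fin K} (h : j ≠ m) : dn m u j = (dl u j).natAbs := by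
  unfold dn
  rw [if_neg h]

theorem dn_dvd (u : PolyK K) (j : Fin K) : (dn m u j : ℤ) ∣ dl u j := by
  by_cases h : j = m
  · rw [h, dn_m]
    exact one_dvd _
  · rw [dn_ne u h]
    exact Int.natAbs_dvd.2 dvd_rfl

theorem dvd_dl_of {p : ℕ} {u : PolyK K} {j : Fin K} (h : p ∣ dn m u j) : (p : ℤ) ∣ dl u j :=
  (Int.natCast_dvd_natCast.2 h).trans (dn_dvd u j)

theorem dvd_dn_iff {p : ℕ} {u : PolyK K} {j : Fin K} (h : j ≠ m) :
    p ∣ dn m u j ↔ (p : ℤ) ∣ dl u j := by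
  rw [dn_ne u h]
  exact Int.natCast_dvd.symm

theorem ne_m_of {p : ℕ} (hp : p.Prime) {u : PolyK K} {j : Fin K} (h : p ∣ dn m u j) : j ≠ m := by
  rintro rfl
  rw [dn_m] at h
  exact hp.one_lt.ne' (Nat.dvd_one.1 h)

end

/-- the polygons of the family -/
structure IsPoly [FD] {K : ℕ} [NeZero K] (m : Fin K) (q : Par K) (x : ℝ) (P0 : ℕ)
    (u : PolyK K) : Prop where
  lo : ∀ j, x ^ q.e j ≤ (nr (u j) : ℝ)
  hi : ∀ j, (nr (u j) : ℝ) ≤ x ^ (q.e j + q.ε / 50)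
  sg : ∀ i j, i ≠ j → 0 < q.σ i j * dt (u i) (u j)
  sq : ∀ j, Squarefree (dn m u j)
  ro : ∀ j p, p.Prime → p ∣ dn m u j → P0 < p
  co : ∀ i j, i ≠ j → Nat.Coprime (dn m u i) (dn m u j)
  nd : ∀ j k, k ≠ j → k ≠ j + 1 → Nat.Coprime (dn m u j) (dt (u j) (u k)).natAbs
  /-- the determinant of the open edge is prime to all primes `> N0` -/
  op : ∀ p : ℕ, p.Prime → FD.N0 < p → ¬ (p : ℤ) ∣ dl u m
  np : FD.N0 ≤ P0

/-- the base `R` is good for `u`, with the sizes -/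
structure Over [FD] {K : ℕ} [NeZero K] (m : Fin K) (q : Par K) (x : ℝ) (R : Bas) (u : PolyK K) :
    Prop where
  disc : R.1 * R.2.2 - R.2.1 ^ 2 = FD.D
  pos : 0 < R.1
  dm : (dn m u (-1) : ℤ) ∣ R.1
  d1 : (dn m u 1 : ℤ) ∣ R.2.2
  d0 : (dn m u 0 : ℤ) ∣ Rf R (cv u 2)
  dj : ∀ j ∈ inr K, j ≠ 0 → (dn m u j : ℤ) ∣ Rf R (cv u j)
  g1 : x * nr (u 0) ≤ q.C4 * R.1 * nr (u 1)
  g2 : (R.1 : ℝ) * nr (u 1) ≤ q.C4 * x * nr (u 0)
  n1 : |(R.2.1 : ℝ)| ≤ q.C4 * x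

/-! ### forms modulo `p` -/

/-- the forms modulo `p` of determinant `D` -/
noncomputable def VV [FD] (p : ℕ) : Finset Bas :=
  ((Ico (0 : ℤ) p) ×ˢ (Ico (0 : ℤ) p) ×ˢ (Ico (0 : ℤ) p)).filter
    (fun r => (p : ℤ) ∣ r.1 * r.2.2 - r.2.1 ^ 2 - FD.D)

/-- the mean over the forms modulo `p` -/
noncomputable def mV [FD] (p : ℕ) (h : Bas → ℝ) : ℝ := (∑ r ∈ VV p, h r) / ((VV p).card : ℝ)

/-- (EQ-Q) = MAJ: a majorant family for the bases, equidistributed modulo squarefree numbers composed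
of primes `> N0` (product form) -/
def EQQ [FD] (δ : ℝ) : Prop := ∀ C4 : ℝ, 1 ≤ C4 → ∃ C x₀ : ℝ, 0 < C ∧ 2 ≤ x₀ ∧ ∀ x ≥ x₀, ∀ G : ℝ,
  x ^ (1 - δ) ≤ G → G ≤ x ^ (1 + δ) → ∃ (O : Finset Bas) (f : Bas → Bas),
    (∀ R : Bas, R.1 * R.2.2 - R.2.1 ^ 2 = FD.D → G < (R.1 : ℝ) → (R.1 : ℝ) ≤ 2 * G →
      |(R.2.1 : ℝ)| ≤ C4 * x → ∃ o ∈ O, f o = R) ∧
    (O.card : ℝ) ≤ C * x ∧
    ∀ (T : Finset ℕ) (h : ℕ → Bas → ℝ), (∀ p ∈ T, p.Prime ∧ FD.N0 < p) →
      ((∏ p ∈ T, p : ℕ) : ℝ) ≤ x ^ δ → (∀ p ∈ T, PerV p (h p)) →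
      (∀ p ∈ T, ∀ r, 0 ≤ h p r ∧ h p r ≤ 1) →
      |∑ o ∈ O, ∏ p ∈ T, h p (f o) - O.card * ∏ p ∈ T, mV p (h p)| ≤ x ^ (1 - δ)

/-- the bound below which primes are dropped -/
def nz [FD] (K : ℕ) : ℕ := 100 * K + FD.N0

theorem nz_N [FD] {K p : ℕ} (h : nz K < p) : FD.N0 < p := by
  unfold nz at h
  omega

theorem nz_K [FD] {K p : ℕ} (h : nz K < p) : 100 * K < p := by
  unfold nz at h
  omega

/-- the local factor of the interior edges of `u` -/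
noncomputable def thi {K : ℕ} [NeZero K] (m : Fin K) (W : Wts K) (P : ℕ) (u : PolyK K) (p : ℕ) :
    ℝ := ∏ j ∈ inr K, if p ∣ dn m u j then lw P p (W.al j) else 1

/-- the local factor at `p ∣ D(u) D(u')` -/
noncomputable def th {K : ℕ} [NeZero K] (m : Fin K) (W : Wts K) (P : ℕ) (u u' : PolyK K) (p : ℕ) :
    ℝ :=
  thi m W P u p * thi m W P u' p *
    (ths P p (W.al 1 ^ 2 / W.s1) (W.al 1 * W.be 1 / W.s1) (p ∣ dn m u 1) (p ∣ dn m u' 1) *
      ths P p (W.al (-1) ^ 2 / W.s0) (W.al (-1) * W.be 0 / W.s0) (p ∣ dn m u (-1))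
        (p ∣ dn m u' (-1)))

/-- the weight of a pair over a base (primes `> N0`) -/
noncomputable def Wt [FD] {K : ℕ} [NeZero K] (m : Fin K) (W : Wts K) (P0 P : ℕ) (u u' : PolyK K)
    (R : Bas) : ℝ :=
  ∏ p ∈ prs FD.N0 P, if p ∣ DD m u * DD m u' then th m W P u u' p else phi W P0 u u' p R

open Classical in
/-- the line of `u` at `p ∣ D(u)` -/
noncomputable def Lv {K : ℕ} [NeZero K] (m : Fin K) (u : PolyK K) (p : ℕ) : ℤ × ℤ :=
  if p ∣ dn m u 1 then (0, 1) else if p ∣ dn m u (-1) then (1, 0)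
  else if p ∣ dn m u 0 then cv u 2
  else if h : ∃ j ∈ inr K, j ≠ 0 ∧ p ∣ dn m u j then cv u h.choose else (0, 0)

/-- the lines of `u` and `u'` at `p` agree -/
def SameL {K : ℕ} [NeZero K] (m : Fin K) (u u' : PolyK K) (p : ℕ) : Prop :=
  (p : ℤ) ∣ dt (Lv m u p) (Lv m u' p)

open Classical in
/-- the probability that a form is good for `u` and `u'` at `p ∣ D(u) D(u')` -/
noncomputable def pip {K : ℕ} [NeZero K] (m : Fin K) (u u' : PolyK K) (p : ℕ) : ℝ :=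
  if p ∣ DD m u ∧ p ∣ DD m u' ∧ ¬ SameL m u u' p then 2 / ((p : ℝ) * (p + 1))
  else 2 / ((p : ℝ) + 1)

/-- the probability that a form is good for `u` and `u'` -/
noncomputable def pit {K : ℕ} [NeZero K] (m : Fin K) (u u' : PolyK K) : ℝ :=
  ∏ p ∈ (DD m u * DD m u').primeFactors, pip m u u' p

/-- `v_p(u,u')` -/
noncomputable def vv [FD] {K : ℕ} [NeZero K] (W : Wts K) (P0 : ℕ) (u u' : PolyK K) (p : ℕ) : ℝ :=
  mV p (fun R => 1 - phi W P0 u u' p R)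

/-- `Θ(u,u')` -/
noncomputable def TH {K : ℕ} [NeZero K] (m : Fin K) (W : Wts K) (P : ℕ) (u u' : PolyK K) : ℝ :=
  ∏ p ∈ (DD m u * DD m u').primeFactors, pip m u u' p * th m W P u u' p

/-- the product over `p ∤ D(u) D(u')` after the sum over the bases (primes `> nz K` only) -/
noncomputable def VP [FD] {K : ℕ} [NeZero K] (m : Fin K) (W : Wts K) (P0 P : ℕ) (u u' : PolyK K) :
    ℝ :=
  ∏ p ∈ (prs (nz K) P).filter (fun p => ¬ p ∣ DD m u * DD m u'), (1 - vv W P0 u u' p)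

open Classical in
/-- the common primes of interior edges on the same line -/
noncomputable def Gc {K : ℕ} [NeZero K] (m : Fin K) (u u' : PolyK K) : ℕ :=
  ∏ p ∈ (Nat.gcd (bad m u) (bad m u')).primeFactors.filter (SameL m u u'), p

/-- the part of the upper bound for `Θ` at the interior edges of `u` -/
noncomputable def wi {K : ℕ} [NeZero K] (m : Fin K) (W : Wts K) (P : ℕ) (u : PolyK K) : ℝ :=
  ∏ j ∈ inr K, ∏ p ∈ (dn m u j).primeFactors, 2 * lw P p (W.al j) / p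

/-- the upper bound for `Θ` -/
noncomputable def ThB {K : ℕ} [NeZero K] (m : Fin K) (W : Wts K) (P : ℕ) (u u' : PolyK K) : ℝ :=
  (∏ p ∈ (Gc m u u').primeFactors, (p : ℝ) / 2) * (wi m W P u * wi m W P u') *
    (wsp P (W.al 1 ^ 2 / W.s1) (W.al 1 * W.be 1 / W.s1) (dn m u 1) (dn m u' 1) *
      wsp P (W.al (-1) ^ 2 / W.s0) (W.al (-1) * W.be 0 / W.s0) (dn m u (-1)) (dn m u' (-1)))

/-- all primes of `D(u)` have two isotropic lines -/
def One4 [FD] {K : ℕ} [NeZero K] (m : Fin K) (u : PolyK K) : Prop :=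
  ∀ p : ℕ, p.Prime → p ∣ DD m u → Sp p

open Classical in
/-- the function sifted in the second step: the factor of the pair `(u,u')` at `p` -/
noncomputable def Phi [FD] {K : ℕ} [NeZero K] (m : Fin K) (W : Wts K) (P0 : ℕ) (u u' : PolyK K)
    (p : ℕ) : ℝ :=
  if p ∣ bad m u * bad m u' then
    (if p ≤ P0 ∨ ¬ Sp p then 0 else
      (∏ j ∈ inr K, if p ∣ dn m u j then 2 * W.al j else 1) *
        ∏ j ∈ inr K, if p ∣ dn m u' j then 2 * W.al j else 1)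
  else 1 - vv W P0 u u' p

/-- the local facts about a law of polygons modulo `p`; `m`: the open edge -/
structure LocF {K : ℕ} [NeZero K] (m : Fin K) (p : ℕ) (L : Finset (PolyK K)) (C : ℝ) :
    Prop where
  ne : L.Nonempty
  /-- every interior edge which is not open is `0` with probability about `1/p` -/
  a : ∀ j ∈ inr K \ {m}, 1 / (p : ℝ) - C / (p : ℝ) ^ 2 ≤ mL L (fun u => ich ((p : ℤ) ∣ dl u j))
  a' : ∀ j ∈ inr K \ {m}, mL L (fun u => ich ((p : ℤ) ∣ dl u j)) ≤ C / p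
  /-- two interior edges are rarely both `0` -/
  b : ∀ i ∈ inr K \ {m}, ∀ j ∈ inr K \ {m}, i ≠ j →
    mL L (fun u => ich ((p : ℤ) ∣ dl u i ∧ (p : ℤ) ∣ dl u j)) ≤ C / (p : ℝ) ^ 2
  /-- `c_k` rarely lies on a given line -/
  c : ∀ k ∈ ivr K, ∀ v : ℤ × ℤ, ¬ ((p : ℤ) ∣ v.1 ∧ (p : ℤ) ∣ v.2) →
    mL L (fun u => ich (¬ (p : ℤ) ∣ bad m u ∧ (p : ℤ) ∣ dt (cv u k) v)) ≤ C / p
  /-- `c_i`, `c_j` are rarely parallel -/
  d : ∀ i ∈ ivr K, ∀ j ∈ ivr K, i ≠ j →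
    mL L (fun u => ich (¬ (p : ℤ) ∣ bad m u ∧ (p : ℤ) ∣ dt (cv u i) (cv u j))) ≤ C / p
  /-- the special edges and the open edge are never `0` modulo `p` -/
  s1 : ∀ u ∈ L, ¬ (p : ℤ) ∣ dl u 1
  sm : ∀ u ∈ L, ¬ (p : ℤ) ∣ dl u (-1)
  so : ∀ u ∈ L, ¬ (p : ℤ) ∣ dl u m

end Pool.Agent.AQ.PENK
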