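import Pool.Agent.Lib_helper18.PENK11.Defs
import Pool.Agent.Lib_helper18.AQ.K.Defs

/-!
# AQ (MP_892e4c_nt, all quadratics): pairs of paths, `k = 10` (helper18)

A path `u_0 = (1,0), ..., u_10 = z` is a closed 11-gon with an open edge of determinant `-z.2`.
It is rotated so that the base edge is the edge `0`; `m` is the index of the open edge, i.e.
`u m = z`, `u (m+1) = (1,0)` (indices modulo 11). `m = 0`: the base is the form itself (in the frame
`z`, `(1,0)`).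
-/

set_option autoImplicit false

namespace Pool.Agent.AQ.PENK

open Finset Pool.Agent.PENT Pool.Agent.PENK

/-- the fixed vertices -/
def fx [FD] (m i : Fin 11) : Option (ℤ × ℤ) :=
  if i = m then some FD.z else if i = m + 1 then some (1, 0) else none

section

variable [FD]

theorem fx_z (m : Fin 11) : fx m m = some FD.z := by
  unfold fx
  rw [if_pos rfl]

theorem succ_ne (m : Fin 11) : m + 1 ≠ m := by
  revert m
  decide

theorem fx_1 (m : Fin 11) : fx m (m + 1) = some (1, 0) := by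
  unfold fx
  rw [if_neg (succ_ne m), if_pos rfl]

theorem fx_none {m i : Fin 11} (h : i ≠ m) (h1 : i ≠ m + 1) : fx m i = none := by
  unfold fx
  rw [if_neg h, if_neg h1]

theorem fx_none_iff {m i : Fin 11} : fx m i = none ↔ i ≠ m ∧ i ≠ m + 1 := by
  constructor
  · intro h
    unfold fx at h
    split_ifs at h with h1 h2
    exact ⟨h1, h2⟩
  · rintro ⟨h, h1⟩
    exact fx_none h h1

theorem fx_cases (m i : Fin 11) : (fx m i = none ∧ i ≠ m ∧ i ≠ m + 1) ∨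
    (fx m i = some FD.z ∧ i = m) ∨ (fx m i = some (1, 0) ∧ i = m + 1) := by
  by_cases h : i = m
  · exact Or.inr (Or.inl ⟨by rw [h]; exact fx_z m, h⟩)
  · by_cases h1 : i = m + 1
    · exact Or.inr (Or.inr ⟨by rw [h1]; exact fx_1 m, h1⟩)
    · exact Or.inl ⟨fx_none h h1, h, h1⟩

theorem fx_some {m i : Fin 11} {c : ℤ × ℤ} (h : fx m i = some c) : c = FD.z ∨ c = (1, 0) := by
  rcases fx_cases m i with ⟨h1, _⟩ | ⟨h1, _⟩ | ⟨h1, _⟩
  · rw [h] at h1
    simp at h1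
  · rw [h] at h1
    exact Or.inl (Option.some.inj h1)
  · rw [h] at h1
    exact Or.inr (Option.some.inj h1)

theorem fx_gcd {m i : Fin 11} {c : ℤ × ℤ} (h : fx m i = some c) : Int.gcd c.1 c.2 = 1 := by
  rcases fx_some h with rfl | rfl
  · exact FD.zc
  · rfl

end

/-- the paths (rotated; open edge `m`), `κ` = level -/
structure IsPath [FD] (q : Par 11) (κ : ℝ) (m : Fin 11) (x : ℝ) (P0 : ℕ) (u : PolyK 11) :
    Prop where
  poly : IsPoly m q x P0 u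
  sep : Sep q u
  fix : ∀ j c, fx m j = some c → u j = c
  lo : ∀ j, fx m j = none → x ^ (4 * κ) ≤ (nr (u j) : ℝ)
  g1 : fx m 1 = none → fx m 2 = none → x ^ (4 * κ) * nr (u 1) ≤ (nr (u 2) : ℝ) ∨
    x ^ (4 * κ) * nr (u 2) ≤ (nr (u 1) : ℝ)
  g4 : fx m (-1) = none → fx m 0 = none → x ^ (4 * κ) * nr (u (-1)) ≤ (nr (u 0) : ℝ) ∨
    x ^ (4 * κ) * nr (u 0) ≤ (nr (u (-1)) : ℝ)

/-- admissible dyadic sizes -/
structure PSiz [FD] (κ : ℝ) (m : Fin 11) (x : ℝ) (i : Fin 11 → ℕ) : Prop where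
  fix : ∀ j c, fx m j = some c → i j = Nat.log 2 (nr c)
  lo : ∀ j, fx m j = none → x ^ (4 * κ) ≤ (2 : ℝ) ^ (i j + 1)
  hi : ∀ j, (2 : ℝ) ^ i j ≤ x
  g1 : fx m 1 = none → fx m 2 = none →
    x ^ (4 * κ) ≤ (2 : ℝ) ^ (max (i 1) (i 2) - min (i 1) (i 2) + 1)
  g4 : fx m (-1) = none → fx m 0 = none →
    x ^ (4 * κ) ≤ (2 : ℝ) ^ (max (i (-1)) (i 0) - min (i (-1)) (i 0) + 1)

/-! ### the families -/

/-- the indices of the family of pairs `(a, b)`, `det(a, b) = δ`; `fa, fb`: fixed values -/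
noncomputable def OS (fa fb : Option (ℤ × ℤ)) (ia ib : ℕ) : Finset ((ℤ × ℤ) × ℤ) :=
  match fa, fb with
  | none, none => OP (2 ^ (min ia ib + 1)) (4 * 2 ^ (max ia ib - min ia ib))
  | some _, none => {(0, 0)} ×ˢ Icc (-((2 ^ (ib + 2) : ℕ) : ℤ)) ((2 ^ (ib + 2) : ℕ) : ℤ)
  | none, some _ => {(0, 0)} ×ˢ Icc (-((2 ^ (ia + 2) : ℕ) : ℤ)) ((2 ^ (ia + 2) : ℕ) : ℤ)
  | some _, some _ => {((0, 0), 0)}

/-- the pair with the index `o`: if nothing is fixed as in `pol5`; `a = c` fixed: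
`b = bz c δ + t c`; `b = c` fixed: `a = bz c (-δ) + t c` -/
noncomputable def pS (fa fb : Option (ℤ × ℤ)) (ia ib : ℕ) (δ : ℤ) (o : (ℤ × ℤ) × ℤ) :
    (ℤ × ℤ) × (ℤ × ℤ) :=
  match fa, fb with
  | none, none => if ia < ib then pP δ o else ((pP (-δ) o).2, (pP (-δ) o).1)
  | some c, none => (c, (pP δ (c, o.2)).2)
  | none, some c => ((pP (-δ) (c, o.2)).2, c)
  | some c, some c' => (c, c')

/-- the law modulo `p` -/
noncomputable def LS (fa fb : Option (ℤ × ℤ)) (δ : ℤ) (p : ℕ) : Finset ((ℤ × ℤ) × (ℤ × ℤ)) :=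
  open Classical in
  (L2 δ p).filter (fun v => (∀ c, fa = some c → cg1 p v.1 c) ∧ (∀ c, fb = some c → cg1 p v.2 c))

noncomputable def LL1 (f : Option (ℤ × ℤ)) (p : ℕ) : Finset (ℤ × ℤ) :=
  open Classical in
  (L1 p).filter (fun v => ∀ c, f = some c → cg1 p v c)

noncomputable def O11 [FD] (m : Fin 11) (i : Fin 11 → ℕ) : Finset I11 :=
  ((OS (fx m 1) (fx m 2) (i 1) (i 2)) ×ˢ (OS (fx m 10) (fx m 0) (i 10) (i 0))) ×ˢ
    Fintype.piFinset (fun j => O1 (fx m (sv j)) (i (sv j)))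

noncomputable def pol11 [FD] (m : Fin 11) (i : Fin 11 → ℕ) (δ1 δ2 : ℤ) (o : I11) : PolyK 11 :=
  asm11 ((pS (fx m 1) (fx m 2) (i 1) (i 2) δ1 o.1.1, pS (fx m 10) (fx m 0) (i 10) (i 0) δ2 o.1.2),
    o.2)

/-- the law modulo `p`: the fixed vertices, `dl_1 = δ1`, `dl_10 = δ2` -/
noncomputable def Law11 [FD] (m : Fin 11) (δ1 δ2 : ℤ) (p : ℕ) : Finset (PolyK 11) :=
  open Classical in
  (Fintype.piFinset (fun _ : Fin 11 => L1 p)).filter
    (fun u => (∀ j c, fx m j = some c → cg1 p (u j) c) ∧ (p : ℤ) ∣ dl u 1 - δ1 ∧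
      (p : ℤ) ∣ dl u 10 - δ2)

/-- `δ` is admissible for the slot: if both vertices are fixed it is `det(z,(1,0)) = -z.2` -/
def dOk [FD] (m : Fin 11) (δ1 δ2 : ℤ) : Prop := (m = 1 → δ1 = -FD.z.2) ∧ (m = 10 → δ2 = -FD.z.2)

/-- the pairs of paths -/
structure PairP [FD] (q : Par 11) (κ : ℝ) (m : Fin 11) (x : ℝ) (P0 : ℕ)
    (s : PolyK 11 × PolyK 11) : Prop where
  p1 : IsPath q κ m x P0 s.1
  p2 : IsPath q κ m x P0 s.2
  o1 : One4 m s.1
  o2 : One4 m s.2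
  cp : Compat q s.1 s.2

open Classical in
/-- the density of the second sieve: general form -/
noncomputable def FFg [FD] (B3 BP B1 C1 : ℝ) (P0 p : ℕ) : ℝ :=
  1 - (if ¬ Sp p then B3 else if p ≤ P0 then BP else B1) / p + C1 / (p : ℝ) ^ 2

end Pool.Agent.AQ.PENK
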